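import Pool.Agent.H979.BK.Stm

/-!
# Project BK (helper979), lemma MX: the number of mixed pairs is linear

Proof plan by helper979.
-/

set_option autoImplicit false

open Filter Topology Finset Pool.Agent.H979.BK

namespace Pool.Agent.H484

namespace BKMX

variable {d n : ℕ}

theorem perm_mem {W : Finset (Ball d n)} {ρ : Equiv.Perm (Ball d n)}
    (hρ : ∀ b, b ∉ W → ρ b = b) (b : Ball d n) : ρ b ∈ W ↔ b ∈ W := by
  constructor
  · intro h
    by_contra hb
    rw [hρ b hb] at h
    exact hb h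
  · intro h
    by_contra hb
    have h1 := ρ.injective (hρ (ρ b) hb)
    rw [h1] at hb
    exact hb h

theorem perm_urn {W : Finset (Ball d n)} {ρ : Equiv.Perm (Ball d n)} {i : Fin d}
    (hW : ∀ b ∈ W, b.1 = i) (hρ : ∀ b, b ∉ W → ρ b = b) (b : Ball d n) : (ρ b).1 = b.1 := by
  by_cases hb : b ∈ W
  · rw [hW _ ((perm_mem hρ b).2 hb), hW b hb]
  · rw [hρ b hb]

theorem kap_perm {W : Finset (Ball d n)} {ρ : Equiv.Perm (Ball d n)}
    (hρ : ∀ b, b ∉ W → ρ b = b) (u : Ball d n → Fin d) (l : Fin d) :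
    kap W (u ∘ ρ) l = kap W u l := by
  unfold kap
  refine Finset.card_equiv ρ fun b => ?_
  rw [mem_filter, mem_filter, perm_mem hρ]
  rfl

theorem flow_perm {W : Finset (Ball d n)} {ρ : Equiv.Perm (Ball d n)} {i : Fin d}
    (hW : ∀ b ∈ W, b.1 = i) (hρ : ∀ b, b ∉ W → ρ b = b) (u : Ball d n → Fin d) (i' l : Fin d) :
    flow (u ∘ ρ) i' l = flow u i' l := by
  unfold flow
  refine Finset.card_equiv ρ fun b => ?_
  rw [mem_filter, mem_filter, perm_urn hW hρ]
  simp

/-- the balls which start in urn `i` -/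
def urn (n : ℕ) {d : ℕ} (i : Fin d) : Finset (Ball d n) := univ.image fun a : Fin n => (i, a)

theorem mem_urn {i : Fin d} {b : Ball d n} : b ∈ urn n i ↔ b.1 = i := by
  unfold urn
  rw [mem_image]
  constructor
  · rintro ⟨a, -, rfl⟩
    rfl
  · rintro rfl
    exact ⟨b.2, mem_univ _, rfl⟩

theorem card_urn (i : Fin d) : (urn n i).card = n := by
  unfold urn
  rw [card_image_of_injective _ (fun a b h => (Prod.mk.inj h).2), card_univ, Fintype.card_fin]

theorem kap_urn (u : Ball d n → Fin d) (i l : Fin d) : kap (urn n i) u l = flow u i l := by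
  unfold kap flow
  congr 1
  ext b
  rw [mem_filter, mem_filter, mem_urn]
  simp

theorem kap_image {R : ℕ} {q : Fin R → Ball d n} (hq : Function.Injective q)
    (S : Finset (Fin R)) (u : Ball d n → Fin d) (l : Fin d) :
    kap (S.image q) u l = (S.filter fun r => u (q r) = l).card := by
  unfold kap
  rw [filter_image, card_image_of_injective _ hq]

end BKMX

open BKMX in
open Classical in
theorem bk_mx (hA1 : S_A1) (hHG : S_HG) : S_MX := by
  intro d α β hα hβ
  refine ⟨4 / (α ^ 2 * β) + 16 / α ^ 2 + (16 / (α ^ 2 * β)) ^ 2, α ^ 2 * β / 16, by positivity,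
    by positivity, ?_⟩
  intro n k μ hμ hk hn m R i l l' p q hβR h2R hp hq hpq hpqi
  have hn0 : (0 : ℝ) < n := by exact_mod_cast hn
  have hR0 : (0 : ℝ) < R := lt_of_lt_of_le (by positivity) hβR
  have h2R' : 2 * (R : ℝ) ≤ n := by exact_mod_cast h2R
  obtain ⟨P, hP0, hP1, -, hPE⟩ := hA1 d n k μ hμ hk m
  -- the sets
  set W1 : Finset (Ball d n) := urn n i with hW1
  set PP : Finset (Ball d n) := univ.image p with hPP
  set W2 : Finset (Ball d n) := W1 \ PP with hW2
  set K : (Ball d n → Fin d) → Finset (Ball d n) :=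
    fun u => (univ.filter fun r => u (p r) = l).image q with hK
  have hPPc : PP.card = R := by
    rw [hPP, card_image_of_injective _ hp, card_univ, Fintype.card_fin]
  have hPPW : PP ⊆ W1 := by
    intro b hb
    rw [hPP, mem_image] at hb
    obtain ⟨r, -, rfl⟩ := hb
    exact mem_urn.2 (hpqi r).1
  have hW2c : (W2.card : ℝ) = n - R := by
    have h1 := Finset.card_sdiff_add_card_eq_card hPPW
    rw [hPPc, hW1, card_urn] at h1
    rw [eq_sub_iff_add_eq]
    exact_mod_cast h1
  have hW2n : (W2.card : ℝ) ≤ n := by rw [hW2c]; linarith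
  have hW2h : (n : ℝ) / 2 ≤ W2.card := by rw [hW2c]; linarith
  have hW2pos : (0 : ℝ) < W2.card := by linarith
  have hW1i : ∀ b ∈ W1, b.1 = i := fun b hb => mem_urn.1 hb
  have hW2i : ∀ b ∈ W2, b.1 = i := fun b hb => hW1i b (Finset.mem_sdiff.1 hb).1
  have hKW : ∀ u, K u ⊆ W2 := by
    intro u b hb
    rw [hK, mem_image] at hb
    obtain ⟨r, -, rfl⟩ := hb
    rw [hW2, Finset.mem_sdiff]
    refine ⟨mem_urn.2 (hpqi r).2, fun h => ?_⟩
    rw [hPP, mem_image] at h
    obtain ⟨s, -, hs⟩ := h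
    exact hpq s r hs
  have hKc : ∀ u, (K u).card = kap PP u l := by
    intro u
    rw [hPP, kap_image hp, hK, card_image_of_injective _ hq]
  have hKl : ∀ u, kap (K u) u l' = (univ.filter fun r => (u (p r) = l ∧ u (q r) = l')).card := by
    intro u
    rw [hK, kap_image hq, filter_filter]
  have hKR : ∀ u, ((K u).card : ℝ) ≤ R := by
    intro u
    have h1 : (K u).card ≤ R := by
      rw [hK, card_image_of_injective _ hq]
      exact (card_filter_le _ _).trans (by rw [card_univ, Fintype.card_fin])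
    exact_mod_cast h1
  -- the events
  set G : (Ball d n → Fin d) → Prop := fun u => ∀ i' l'', α * n ≤ flow u i' l'' with hG
  set g : (Ball d n → Fin d) → ℝ := fun u => if G u then 1 else 0 with hg
  set Φ : (Ball d n → Fin d) → ℝ := fun u =>
    if G u ∧ α * R / 2 ≤ ((K u).card : ℝ) ∧ α * n / 4 ≤ (kap W2 u l' : ℝ) then 1 else 0 with hΦ
  have hg0 : ∀ u, 0 ≤ g u := by
    intro u
    simp only [hg]
    split_ifs <;> norm_num
  have hg1 : ∀ u, g u ≤ 1 := by
    intro u
    simp only [hg]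
    split_ifs <;> norm_num
  have hΦ0 : ∀ u, 0 ≤ Φ u := by
    intro u
    simp only [hΦ]
    split_ifs <;> norm_num
  have hΦ1 : ∀ u, Φ u ≤ 1 := by
    intro u
    simp only [hΦ]
    split_ifs <;> norm_num
  have hGinv : ∀ (W : Finset (Ball d n)), (∀ b ∈ W, b.1 = i) → ∀ ρ : Equiv.Perm (Ball d n),
      (∀ b, b ∉ W → ρ b = b) → ∀ u : Ball d n → Fin d, G (u ∘ ρ) = G u := by
    intro W hW ρ hρ u
    simp only [hG, flow_perm hW hρ]
  -- the mean of a bounded quantity
  have hmean : ∀ (F : (Ball d n → Fin d) → ℝ) (B : ℝ), (∀ u, F u ≤ B) → E μ k m F ≤ B := by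
    intro F B hF
    rw [hPE]
    calc ∑ u, P u * F u ≤ ∑ u, P u * B :=
          Finset.sum_le_sum fun u _ => mul_le_mul_of_nonneg_left (hF u) (hP0 u)
      _ = B := by rw [← Finset.sum_mul, hP1, one_mul]
  -- the three applications
  have e1 := hHG d n k μ hμ hk m i l W1 (fun _ => PP) g hW1i (fun _ => hPPW) hg0
    (fun ρ hρ u => ⟨rfl, by simp only [hg, hGinv W1 hW1i ρ hρ u]⟩)
  have e2 := hHG d n k μ hμ hk m i l' W1 (fun _ => W2) g hW1i
    (fun _ => Finset.sdiff_subset) hg0
    (fun ρ hρ u => ⟨rfl, by simp only [hg, hGinv W1 hW1i ρ hρ u]⟩)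
  have hKinv : ∀ ρ : Equiv.Perm (Ball d n), (∀ b, b ∉ W2 → ρ b = b) →
      ∀ u : Ball d n → Fin d, K (u ∘ ρ) = K u := by
    intro ρ hρ u
    simp only [hK]
    congr 1
    refine Finset.filter_congr fun r _ => ?_
    have h1 : p r ∉ W2 := by
      rw [hW2, Finset.mem_sdiff]
      rintro ⟨-, h⟩
      exact h (mem_image_of_mem p (mem_univ r))
    rw [Function.comp_apply, hρ _ h1]
  have e3 := hHG d n k μ hμ hk m i l' W2 K Φ hW2i hKW hΦ0
    (fun ρ hρ u => ⟨hKinv ρ hρ u, by
      simp only [hΦ, hGinv W2 hW2i ρ hρ u, hKinv ρ hρ u, kap_perm hρ u]⟩)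
  have f1 : E μ k m (fun u => g u * ((kap PP u l : ℝ) - (PP.card : ℝ) * kap W1 u l /
      (W1.card : ℝ)) ^ 2) ≤ R := by
    refine e1.trans (hmean _ _ fun u => ?_)
    rw [hPPc]
    calc g u * (R : ℝ) ≤ 1 * R := mul_le_mul_of_nonneg_right (hg1 u) hR0.le
      _ = R := one_mul _
  have f2 : E μ k m (fun u => g u * ((kap W2 u l' : ℝ) - (W2.card : ℝ) * kap W1 u l' /
      (W1.card : ℝ)) ^ 2) ≤ n := by
    refine e2.trans (hmean _ _ fun u => ?_)
    calc g u * (W2.card : ℝ) ≤ 1 * W2.card := mul_le_mul_of_nonneg_right (hg1 u) hW2pos.le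
      _ ≤ n := by rw [one_mul]; exact hW2n
  have f3 : E μ k m (fun u => Φ u * ((kap (K u) u l' : ℝ) - ((K u).card : ℝ) * kap W2 u l' /
      (W2.card : ℝ)) ^ 2) ≤ n := by
    refine e3.trans (hmean _ _ fun u => ?_)
    calc Φ u * ((K u).card : ℝ) ≤ 1 * (K u).card :=
          mul_le_mul_of_nonneg_right (hΦ1 u) (Nat.cast_nonneg _)
      _ ≤ n := by
          rw [one_mul]
          have := hKR u
          linarith
  have hW1c : (W1.card : ℝ) = n := by rw [hW1, card_urn]
  rw [hPE] at f1 f2 f3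
  -- the pointwise bound
  have hpt : ∀ u, (if (∀ i' l'', α * n ≤ flow u i' l'') ∧
      ((univ.filter fun r => (u (p r) = l ∧ u (q r) = l')).card : ℝ) < α ^ 2 * β / 16 * n
        then (1 : ℝ) else 0) ≤
      4 / (α ^ 2 * R ^ 2) * (g u * ((kap PP u l : ℝ) - (PP.card : ℝ) * kap W1 u l /
        (W1.card : ℝ)) ^ 2) +
      16 / (α ^ 2 * n ^ 2) * (g u * ((kap W2 u l' : ℝ) - (W2.card : ℝ) * kap W1 u l' /
        (W1.card : ℝ)) ^ 2) +
      (16 / (α ^ 2 * β)) ^ 2 / n ^ 2 * (Φ u * ((kap (K u) u l' : ℝ) -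
        ((K u).card : ℝ) * kap W2 u l' / (W2.card : ℝ)) ^ 2) := by
    intro u
    have t1 : 0 ≤ 4 / (α ^ 2 * R ^ 2) * (g u * ((kap PP u l : ℝ) - (PP.card : ℝ) * kap W1 u l /
        (W1.card : ℝ)) ^ 2) := mul_nonneg (by positivity) (mul_nonneg (hg0 u) (sq_nonneg _))
    have t2 : 0 ≤ 16 / (α ^ 2 * n ^ 2) * (g u * ((kap W2 u l' : ℝ) - (W2.card : ℝ) *
        kap W1 u l' / (W1.card : ℝ)) ^ 2) :=
      mul_nonneg (by positivity) (mul_nonneg (hg0 u) (sq_nonneg _))
    have t3 : 0 ≤ (16 / (α ^ 2 * β)) ^ 2 / n ^ 2 * (Φ u * ((kap (K u) u l' : ℝ) -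
        ((K u).card : ℝ) * kap W2 u l' / (W2.card : ℝ)) ^ 2) :=
      mul_nonneg (by positivity) (mul_nonneg (hΦ0 u) (sq_nonneg _))
    split_ifs with hbad
    · obtain ⟨hGu, hN⟩ := hbad
      have hgu : g u = 1 := by
        simp only [hg]
        exact if_pos hGu
      have hfl : α * n ≤ (kap W1 u l : ℝ) := by
        rw [hW1, kap_urn]
        exact hGu i l
      have hfl' : α * n ≤ (kap W1 u l' : ℝ) := by
        rw [hW1, kap_urn]
        exact hGu i l'
      by_cases hc1 : α * R / 2 ≤ ((K u).card : ℝ)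
      · by_cases hc2 : α * n / 4 ≤ (kap W2 u l' : ℝ)
        · -- the third case
          have hΦu : Φ u = 1 := by
            simp only [hΦ]
            exact if_pos ⟨hGu, hc1, hc2⟩
          rw [← hKl] at hN
          have h1 : α ^ 2 * β / 8 * n ≤
              ((K u).card : ℝ) * kap W2 u l' / (W2.card : ℝ) := by
            rw [le_div_iff₀ hW2pos]
            calc α ^ 2 * β / 8 * n * W2.card ≤ α ^ 2 * β / 8 * n * n :=
                  mul_le_mul_of_nonneg_left hW2n (by positivity)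
              _ = α * (β * n) / 2 * (α * n / 4) := by ring
              _ ≤ α * R / 2 * (α * n / 4) := by gcongr
              _ ≤ ((K u).card : ℝ) * kap W2 u l' :=
                  mul_le_mul hc1 hc2 (by positivity) (Nat.cast_nonneg _)
          have h2 : α ^ 2 * β / 16 * n ≤
              ((K u).card : ℝ) * kap W2 u l' / (W2.card : ℝ) - kap (K u) u l' := by linarith
          have h3 : (α ^ 2 * β / 16 * n) ^ 2 ≤ ((kap (K u) u l' : ℝ) -
              ((K u).card : ℝ) * kap W2 u l' / (W2.card : ℝ)) ^ 2 := by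
            rw [← neg_sq ((kap (K u) u l' : ℝ) - _), neg_sub]
            exact pow_le_pow_left₀ (by positivity) h2 2
          have h4 : (1 : ℝ) ≤ (16 / (α ^ 2 * β)) ^ 2 / n ^ 2 * (Φ u * ((kap (K u) u l' : ℝ) -
              ((K u).card : ℝ) * kap W2 u l' / (W2.card : ℝ)) ^ 2) := by
            rw [hΦu, one_mul]
            refine le_trans (le_of_eq ?_) (mul_le_mul_of_nonneg_left h3 (by positivity))
            field_simp
          linarith
        · -- the second case
          rw [not_le] at hc2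
          have h1 : α * n / 2 ≤ (W2.card : ℝ) * kap W1 u l' / (W1.card : ℝ) := by
            rw [hW1c, le_div_iff₀ hn0]
            calc α * n / 2 * n = (n : ℝ) / 2 * (α * n) := by ring
              _ ≤ (W2.card : ℝ) * kap W1 u l' := mul_le_mul hW2h hfl' (by positivity) hW2pos.le
          have h2 : α * n / 4 ≤ (W2.card : ℝ) * kap W1 u l' / (W1.card : ℝ) - kap W2 u l' := by
            linarith
          have h3 : (α * n / 4) ^ 2 ≤ ((kap W2 u l' : ℝ) - (W2.card : ℝ) * kap W1 u l' /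
              (W1.card : ℝ)) ^ 2 := by
            rw [← neg_sq ((kap W2 u l' : ℝ) - _), neg_sub]
            exact pow_le_pow_left₀ (by positivity) h2 2
          have h4 : (1 : ℝ) ≤ 16 / (α ^ 2 * n ^ 2) * (g u * ((kap W2 u l' : ℝ) -
              (W2.card : ℝ) * kap W1 u l' / (W1.card : ℝ)) ^ 2) := by
            rw [hgu, one_mul]
            refine le_trans (le_of_eq ?_) (mul_le_mul_of_nonneg_left h3 (by positivity))
            field_simp
            norm_num
          linarith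
      · -- the first case
        rw [not_le, hKc] at hc1
        have h1 : α * R ≤ (PP.card : ℝ) * kap W1 u l / (W1.card : ℝ) := by
          rw [hW1c, hPPc, le_div_iff₀ hn0]
          calc α * R * n = (R : ℝ) * (α * n) := by ring
            _ ≤ (R : ℝ) * kap W1 u l := mul_le_mul_of_nonneg_left hfl hR0.le
        have h2 : α * R / 2 ≤ (PP.card : ℝ) * kap W1 u l / (W1.card : ℝ) - kap PP u l := by
          linarith
        have h3 : (α * R / 2) ^ 2 ≤ ((kap PP u l : ℝ) - (PP.card : ℝ) * kap W1 u l /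
            (W1.card : ℝ)) ^ 2 := by
          rw [← neg_sq ((kap PP u l : ℝ) - _), neg_sub]
          exact pow_le_pow_left₀ (by positivity) h2 2
        have h4 : (1 : ℝ) ≤ 4 / (α ^ 2 * R ^ 2) * (g u * ((kap PP u l : ℝ) -
            (PP.card : ℝ) * kap W1 u l / (W1.card : ℝ)) ^ 2) := by
          rw [hgu, one_mul]
          refine le_trans (le_of_eq ?_) (mul_le_mul_of_nonneg_left h3 (by positivity))
          field_simp
          norm_num
        linarith
    · linarith
  rw [hPE]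
  have hfin := Finset.sum_le_sum fun u (_ : u ∈ (univ : Finset (Ball d n → Fin d))) =>
    mul_le_mul_of_nonneg_left (hpt u) (hP0 u)
  refine hfin.trans ?_
  have hsplit : ∀ (a b c : ℝ) (X Y Z : (Ball d n → Fin d) → ℝ),
      ∑ u, P u * (a * X u + b * Y u + c * Z u) =
        a * (∑ u, P u * X u) + b * (∑ u, P u * Y u) + c * ∑ u, P u * Z u := by
    intro a b c X Y Z
    rw [Finset.mul_sum, Finset.mul_sum, Finset.mul_sum, ← Finset.sum_add_distrib,
      ← Finset.sum_add_distrib]
    exact Finset.sum_congr rfl fun u _ => by ring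
  rw [hsplit]
  have g1 := mul_le_mul_of_nonneg_left f1 (by positivity : (0 : ℝ) ≤ 4 / (α ^ 2 * R ^ 2))
  have g2 := mul_le_mul_of_nonneg_left f2 (by positivity : (0 : ℝ) ≤ 16 / (α ^ 2 * n ^ 2))
  have g3 := mul_le_mul_of_nonneg_left f3
    (by positivity : (0 : ℝ) ≤ (16 / (α ^ 2 * β)) ^ 2 / n ^ 2)
  refine (add_le_add (add_le_add g1 g2) g3).trans ?_
  have r1 : 4 / (α ^ 2 * (R : ℝ) ^ 2) * R = 4 / (α ^ 2 * R) := by
    field_simp
  have r2 : 4 / (α ^ 2 * (R : ℝ)) ≤ 4 / (α ^ 2 * (β * n)) := by gcongr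
  have r3 : 4 / (α ^ 2 * (β * n)) + 16 / (α ^ 2 * (n : ℝ) ^ 2) * n +
      (16 / (α ^ 2 * β)) ^ 2 / (n : ℝ) ^ 2 * n =
      (4 / (α ^ 2 * β) + 16 / α ^ 2 + (16 / (α ^ 2 * β)) ^ 2) / n := by
    field_simp
  rw [← r3, r1]
  linarith

end Pool.Agent.H484
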