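import Mathlib
import Pool.Agent.H576.CE.Stm

/-!
# Project CE (helper576), lemma ARITH2: an elementary sum estimate

Adapted from `Pool/Agent/H230/CTArith.lean`.
-/

set_option autoImplicit false

namespace Pool.Agent.H484

open Finset Pool.Agent.TH112.BW Pool.Agent.H576.CE

theorem ce_arith : S_ARITH2 := by
  intro b g x Y Q Λ M p e s J N0 m l β far hb0 hb1 hg hbg hx hY hQ hΛ hM hbp hN0 hbx hyp
  have hM1 : (1 : ℝ) ≤ M := by exact_mod_cast hM
  have hM0 : (0 : ℝ) < M := by linarith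
  have hg0 : 0 < g := by linarith
  have hx0 : 0 < x := by linarith
  -- one summand
  have hterm : ∀ j ∈ range (J + 1),
      (4 : ℝ) ^ j * (l j * (M : ℝ) ^ (p * j + s + (2 ^ j / e + 1))
        + b ^ (p * j + s + (2 ^ j / e + 1)) * far j) ≤
        ((Λ * x * Y + 1) * Q * g ^ s) * (1 / 2) ^ j := by
    intro j hj
    have hjJ : j ≤ J := Nat.lt_succ_iff.1 (mem_range.1 hj)
    obtain ⟨hβ, h2, h3, h4, h5, h6, h7⟩ := hyp j hjJ
    have h8 := hbx j
    set E : ℕ := 2 ^ j / e + 1 with hE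
    set Z : ℝ := x ^ (2 ^ (j + 2)) with hZ
    have hZ0 : 0 < Z := pow_pos hx0 _
    have hZ2 : x ^ (2 ^ (j + 3)) = Z ^ 2 := by
      rw [hZ, ← pow_mul]
      congr 1
    rw [hZ2] at h5 h7 h8
    have hm0 : (0 : ℝ) ≤ m j := Nat.cast_nonneg _
    set r : ℝ := √(β j) with hr
    have hr0 : 0 < r := Real.sqrt_pos.2 hβ
    have hr2 : r ^ 2 = β j := Real.sq_sqrt hβ.le
    -- the square roots
    have k1 : (m j : ℝ) * (4 * (M : ℝ) ^ 2) ^ s * r ≤ x * Z * Q := by
      refine (pow_le_pow_iff_left₀ (by positivity) (by positivity) two_ne_zero).1 ?_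
      have e2 : (16 * (M : ℝ) ^ 4) ^ s = ((4 * (M : ℝ) ^ 2) ^ s) ^ 2 := by
        have e5 : (4 * (M : ℝ) ^ 2) ^ 2 = 16 * (M : ℝ) ^ 4 := by ring
        rw [← pow_mul, mul_comm s 2, pow_mul, e5]
      have e1 : ((m j : ℝ) * (4 * (M : ℝ) ^ 2) ^ s * r) ^ 2 =
          ((m j : ℝ) * (16 * (M : ℝ) ^ 4) ^ s) * ((m j : ℝ) * β j) := by
        rw [e2, ← hr2]
        ring
      rw [e1]
      have h4' : (m j : ℝ) * (16 * (M : ℝ) ^ 4) ^ s ≤ x ^ 2 * Q := le_trans (by exact_mod_cast h4) hN0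
      calc ((m j : ℝ) * (16 * (M : ℝ) ^ 4) ^ s) * ((m j : ℝ) * β j) ≤
          (x ^ 2 * Q) * (Z ^ 2 * Q) := mul_le_mul h4' h5 (by positivity) (by positivity)
        _ = (x * Z * Q) ^ 2 := by ring
    have k2 : (16 : ℝ) ^ j * (M : ℝ) ^ (p * j + E) * Z ≤ Y * r := by
      refine (pow_le_pow_iff_left₀ (by positivity) (by positivity) two_ne_zero).1 ?_
      rw [mul_pow Y, hr2]
      exact h2
    have k3 : (16 : ℝ) ^ j * (M : ℝ) ^ (p * j + E) * (m j * (4 * (M : ℝ) ^ 2) ^ s) ≤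
        x * Y * Q := by
      have t1 : ((16 : ℝ) ^ j * (M : ℝ) ^ (p * j + E) * Z) *
          ((m j : ℝ) * (4 * (M : ℝ) ^ 2) ^ s * r) ≤ (Y * r) * (x * Z * Q) :=
        mul_le_mul k2 k1 (by positivity) (by positivity)
      have t2 : ((16 : ℝ) ^ j * (M : ℝ) ^ (p * j + E) * (m j * (4 * (M : ℝ) ^ 2) ^ s)) *
          (Z * r) ≤ (x * Y * Q) * (Z * r) := by
        calc _ = ((16 : ℝ) ^ j * (M : ℝ) ^ (p * j + E) * Z) *
              ((m j : ℝ) * (4 * (M : ℝ) ^ 2) ^ s * r) := by ring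
          _ ≤ (Y * r) * (x * Z * Q) := t1
          _ = (x * Y * Q) * (Z * r) := by ring
      exact le_of_mul_le_mul_right t2 (by positivity)
    have hA : (4 : ℝ) ^ j * (l j * (M : ℝ) ^ (p * j + s + E)) ≤
        (Λ * x * Y * Q * g ^ s) * (1 / 2) ^ j := by
      have s1 : (4 : ℝ) ^ j * (l j * (M : ℝ) ^ (p * j + s + E)) ≤
          (4 : ℝ) ^ j * ((Λ * 2 ^ j * m j) * (M : ℝ) ^ (p * j + s + E)) := by
        apply mul_le_mul_of_nonneg_left _ (by positivity)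
        exact mul_le_mul_of_nonneg_right h3 (by positivity)
      have s2 : (4 : ℝ) ^ j * ((Λ * 2 ^ j * m j) * (M : ℝ) ^ (p * j + s + E)) =
          Λ * ((16 : ℝ) ^ j * (M : ℝ) ^ (p * j + E) * (m j * (M : ℝ) ^ s)) * (1 / 2) ^ j := by
        have t1 : (4 : ℝ) ^ j * 2 ^ j = 16 ^ j * (1 / 2) ^ j := by
          rw [← mul_pow, ← mul_pow]
          norm_num
        have t2 : p * j + s + E = (p * j + E) + s := by omega
        rw [t2, pow_add _ (p * j + E) s]
        calc (4 : ℝ) ^ j * ((Λ * 2 ^ j * m j) * ((M : ℝ) ^ (p * j + E) * (M : ℝ) ^ s)) =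
            (4 ^ j * 2 ^ j) * (Λ * ((M : ℝ) ^ (p * j + E) * (m j * (M : ℝ) ^ s))) := by ring
          _ = _ := by rw [t1]; ring
      have s4 : (4 : ℝ) ^ s * ((16 : ℝ) ^ j * (M : ℝ) ^ (p * j + E) * (m j * (M : ℝ) ^ s)) ≤
          x * Y * Q := by
        refine le_trans ?_ k3
        have t2 : (M : ℝ) ^ s ≤ ((M : ℝ) ^ 2) ^ s := by
          apply pow_le_pow_left₀ hM0.le
          nlinarith
        calc (4 : ℝ) ^ s * ((16 : ℝ) ^ j * (M : ℝ) ^ (p * j + E) * (m j * (M : ℝ) ^ s)) ≤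
            (4 : ℝ) ^ s * ((16 : ℝ) ^ j * (M : ℝ) ^ (p * j + E) * (m j * ((M : ℝ) ^ 2) ^ s)) := by
              apply mul_le_mul_of_nonneg_left _ (by positivity)
              apply mul_le_mul_of_nonneg_left _ (by positivity)
              exact mul_le_mul_of_nonneg_left t2 hm0
          _ = (16 : ℝ) ^ j * (M : ℝ) ^ (p * j + E) * (m j * (4 * (M : ℝ) ^ 2) ^ s) := by
            rw [mul_pow]
            ring
      have s5 : (16 : ℝ) ^ j * (M : ℝ) ^ (p * j + E) * (m j * (M : ℝ) ^ s) ≤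
          x * Y * Q * g ^ s := by
        have t3 : (1 : ℝ) ≤ 4 ^ s * g ^ s := by
          rw [← mul_pow]
          exact one_le_pow₀ (by linarith)
        have t4 : 0 ≤ (16 : ℝ) ^ j * (M : ℝ) ^ (p * j + E) * (m j * (M : ℝ) ^ s) := by positivity
        calc (16 : ℝ) ^ j * (M : ℝ) ^ (p * j + E) * (m j * (M : ℝ) ^ s) ≤
            (16 : ℝ) ^ j * (M : ℝ) ^ (p * j + E) * (m j * (M : ℝ) ^ s) * (4 ^ s * g ^ s) :=
              le_mul_of_one_le_right t4 t3
          _ = ((4 : ℝ) ^ s * ((16 : ℝ) ^ j * (M : ℝ) ^ (p * j + E) * (m j * (M : ℝ) ^ s))) *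
              g ^ s := by ring
          _ ≤ x * Y * Q * g ^ s := mul_le_mul_of_nonneg_right s4 (by positivity)
      calc (4 : ℝ) ^ j * (l j * (M : ℝ) ^ (p * j + s + E)) ≤ _ := s1
        _ = Λ * ((16 : ℝ) ^ j * (M : ℝ) ^ (p * j + E) * (m j * (M : ℝ) ^ s)) * (1 / 2) ^ j := s2
        _ ≤ Λ * (x * Y * Q * g ^ s) * (1 / 2) ^ j := by
          apply mul_le_mul_of_nonneg_right _ (by positivity)
          exact mul_le_mul_of_nonneg_left s5 hΛ
        _ = (Λ * x * Y * Q * g ^ s) * (1 / 2) ^ j := by ring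
    have hB : (4 : ℝ) ^ j * (b ^ (p * j + s + E) * far j) ≤ (Q * g ^ s) * (1 / 2) ^ j := by
      have s0 : b ^ E * far j ≤ Q := by
        calc b ^ E * far j ≤ b ^ E * (Z ^ 2 * Q) :=
              mul_le_mul_of_nonneg_left h7 (by positivity)
          _ = (b ^ E * Z ^ 2) * Q := by ring
          _ ≤ 1 * Q := mul_le_mul_of_nonneg_right h8 hQ
          _ = Q := one_mul Q
      have s1 : (4 : ℝ) ^ j * (b ^ (p * j + s + E) * far j) =
          (4 * b ^ p) ^ j * (b ^ s * (b ^ E * far j)) := by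
        rw [pow_add, pow_add, pow_mul, mul_pow]
        ring
      have s2 : (4 * b ^ p) ^ j ≤ (1 / 2) ^ j := by
        apply pow_le_pow_left₀ (by positivity)
        linarith
      have s3 : b ^ s ≤ g ^ s := pow_le_pow_left₀ hb0.le hbg s
      have s4 : 0 ≤ b ^ E * far j := by positivity
      rw [s1]
      calc (4 * b ^ p) ^ j * (b ^ s * (b ^ E * far j)) ≤ (1 / 2) ^ j * (g ^ s * Q) :=
            mul_le_mul s2 (mul_le_mul s3 s0 s4 (by positivity)) (by positivity) (by positivity)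
        _ = (Q * g ^ s) * (1 / 2) ^ j := by ring
    rw [mul_add]
    refine (add_le_add hA hB).trans (le_of_eq ?_)
    ring
  refine (sum_le_sum hterm).trans ?_
  rw [← mul_sum]
  have hgeo : ∑ j ∈ range (J + 1), ((1 : ℝ) / 2) ^ j ≤ 2 := by
    rw [geom_sum_eq (by norm_num)]
    have : (0 : ℝ) < (1 / 2) ^ (J + 1) := by positivity
    rw [div_le_iff_of_neg (by norm_num)]
    linarith
  have hfac : 0 ≤ (Λ * x * Y + 1) * Q * g ^ s := by positivity
  calc ((Λ * x * Y + 1) * Q * g ^ s) * ∑ j ∈ range (J + 1), ((1 : ℝ) / 2) ^ j ≤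
      ((Λ * x * Y + 1) * Q * g ^ s) * 2 := mul_le_mul_of_nonneg_left hgeo hfac
    _ = (2 * Λ * x * Y + 2) * Q * g ^ s := by ring

end Pool.Agent.H484
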