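import Mathlib
import Pool.Agent.H812.Tm.Spec4

/-!
# Normal form of a fan with a single digit (MP_fc8395, part `SNFa` of helper812)
-/

set_option autoImplicit false

open Real Filter Topology Set
open scoped ContDiff

namespace Pool.Agent.H484.TmNFa

open Pool.Agent.W811.Stu Pool.Agent.H812.Tm

/-- the coefficient of `z` -/
noncomputable def Ac : ℕ → ℝ → ℝ
  | 0, _ => 1
  | 1, y => y
  | n + 2, y => 2 * y * Ac (n + 1) y - Ac n y

/-- the coefficient of `gX` -/
noncomputable def Bc : ℕ → ℝ → ℝ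
  | 0, _ => 0
  | 1, _ => 1
  | n + 2, y => 2 * y * Bc (n + 1) y - Bc n y

lemma Ac_smooth : ∀ n, ContDiff ℝ ∞ (Ac n) ∧ ContDiff ℝ ∞ (Ac (n + 1)) := by
  intro n
  induction n with
  | zero => exact ⟨contDiff_const, contDiff_id⟩
  | succ n ih =>
    refine ⟨ih.2, ?_⟩
    have : Ac (n + 1 + 1) = fun y => 2 * y * Ac (n + 1) y - Ac n y := by
      funext y; rw [Ac]
    rw [this]
    exact ((contDiff_const.mul contDiff_id).mul ih.2).sub ih.1

lemma Bc_smooth : ∀ n, ContDiff ℝ ∞ (Bc n) ∧ ContDiff ℝ ∞ (Bc (n + 1)) := by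
  intro n
  induction n with
  | zero => exact ⟨contDiff_const, contDiff_const⟩
  | succ n ih =>
    refine ⟨ih.2, ?_⟩
    have : Bc (n + 1 + 1) = fun y => 2 * y * Bc (n + 1) y - Bc n y := by
      funext y; rw [Bc]
    rw [this]
    exact ((contDiff_const.mul contDiff_id).mul ih.2).sub ih.1

lemma iter_rec (n : ℕ) (p : P3) :
    (stepR^[n + 2] p).z = 2 * p.y * (stepR^[n + 1] p).z - (stepR^[n] p).z := by
  rw [← iter_x (n + 1), Function.iterate_succ_apply']
  simp only [stepR]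
  rw [iter_y, iter_x, Function.iterate_succ_apply']
  simp only [stepR]
  ring

/-- the formula for the iterates -/
lemma iter_z (p : P3) : ∀ n, (stepR^[n] p).z = Ac n p.y * p.z + Bc n p.y * gX p ∧
    (stepR^[n + 1] p).z = Ac (n + 1) p.y * p.z + Bc (n + 1) p.y * gX p := by
  intro n
  induction n with
  | zero =>
    refine ⟨by simp [Ac, Bc], ?_⟩
    simp [Ac, Bc, stepR, gX]
  | succ n ih =>
    refine ⟨ih.2, ?_⟩
    rw [iter_rec, ih.1, ih.2, Ac, Bc]
    ring

/-- smooth positive function which is the identity for `x ≥ m` -/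
noncomputable def gg (m x : ℝ) : ℝ :=
  x * Real.smoothTransition ((x - m / 2) / (m / 2)) +
    m * (1 - Real.smoothTransition ((x - m / 2) / (m / 2)))

/-- smooth version of the square root -/
noncomputable def ss (m x : ℝ) : ℝ := √(gg m x)

lemma gg_pos {m : ℝ} (hm : 0 < m) (x : ℝ) : 0 < gg m x := by
  unfold gg
  have h0 := Real.smoothTransition.nonneg ((x - m / 2) / (m / 2))
  have h1 := Real.smoothTransition.le_one ((x - m / 2) / (m / 2))
  rcases le_or_gt x (m / 2) with hx | hx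
  · have : Real.smoothTransition ((x - m / 2) / (m / 2)) = 0 :=
      Real.smoothTransition.zero_of_nonpos (div_nonpos_of_nonpos_of_nonneg (by linarith) (by linarith))
    rw [this]; linarith
  · have hx0 : 0 < x := by linarith
    rcases h0.eq_or_lt with h | h
    · rw [← h]; linarith
    · have := mul_pos hx0 h
      have := mul_nonneg hm.le (sub_nonneg.mpr h1)
      linarith

lemma gg_of_ge {m x : ℝ} (hm : 0 < m) (hx : m ≤ x) : gg m x = x := by
  unfold gg
  have : Real.smoothTransition ((x - m / 2) / (m / 2)) = 1 :=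
    Real.smoothTransition.one_of_one_le (by rw [le_div_iff₀ (by linarith)]; linarith)
  rw [this]; ring

lemma ss_smooth {m : ℝ} (hm : 0 < m) : ContDiff ℝ ∞ (ss m) := by
  have h1 : ContDiff ℝ ∞ (fun x : ℝ => Real.smoothTransition ((x - m / 2) / (m / 2))) :=
    Real.smoothTransition.contDiff.comp (by fun_prop)
  have h2 : ContDiff ℝ ∞ (gg m) :=
    (contDiff_id.mul h1).add (contDiff_const.mul (contDiff_const.sub h1))
  exact h2.sqrt fun x => (gg_pos hm x).ne'

lemma ss_hasDeriv {m x : ℝ} (hm : 0 < m) (hx : m < x) : HasDerivAt (ss m) (1 / (2 * √x)) x := by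
  have h1 := Real.hasDerivAt_sqrt (by linarith : x ≠ 0)
  refine h1.congr_of_eventuallyEq ?_
  filter_upwards [Ioi_mem_nhds hx] with y hy
  unfold ss
  rw [gg_of_ge hm (le_of_lt hy)]

/-- the function `F` -/
noncomputable def FF (δ m : ℝ) (D : ℕ) (w : ℝ × ℝ × ℝ × (Fin 1 → ℝ)) : ℝ :=
  w.2.2.1 - Ac D w.2.1 * w.1 -
    w.2.2.2 0 * Bc D w.2.1 * ss m (δ ^ 2 + (1 - w.1 ^ 2) * (1 - w.2.1 ^ 2))

lemma FF_smooth (δ : ℝ) {m : ℝ} (hm : 0 < m) (D : ℕ) : ContDiff ℝ ∞ (FF δ m D) := by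
  unfold FF
  have ha := (Ac_smooth D).1
  have hb := (Bc_smooth D).1
  have hs := ss_smooth hm
  have e1 : ContDiff ℝ ∞ (fun w : ℝ × ℝ × ℝ × (Fin 1 → ℝ) => w.1) := contDiff_fst
  have e2 : ContDiff ℝ ∞ (fun w : ℝ × ℝ × ℝ × (Fin 1 → ℝ) => w.2.1) := by fun_prop
  have e3 : ContDiff ℝ ∞ (fun w : ℝ × ℝ × ℝ × (Fin 1 → ℝ) => w.2.2.1) := by fun_prop
  have e4 : ContDiff ℝ ∞ (fun w : ℝ × ℝ × ℝ × (Fin 1 → ℝ) => w.2.2.2 0) := by fun_prop
  have e5 : ContDiff ℝ ∞ (fun w : ℝ × ℝ × ℝ × (Fin 1 → ℝ) =>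
      δ ^ 2 + (1 - w.1 ^ 2) * (1 - w.2.1 ^ 2)) := by fun_prop
  exact (e3.sub ((ha.comp e2).mul e1)).sub ((e4.mul (hb.comp e2)).mul (hs.comp e5))

/-- the derivative in the direction of `b` is one -/
lemma FF_b (δ : ℝ) {m : ℝ} (hm : 0 < m) (D : ℕ) (w : ℝ × ℝ × ℝ × (Fin 1 → ℝ)) :
    fderiv ℝ (FF δ m D) w (0, 0, 1, 0) = 1 := by
  have hF : HasFDerivAt (FF δ m D) (fderiv ℝ (FF δ m D) w) w :=
    (((FF_smooth δ hm D).differentiable (by simp)) w).hasFDerivAt
  have hγ : HasDerivAt (fun s : ℝ => w + s • ((0, 0, 1, 0) : ℝ × ℝ × ℝ × (Fin 1 → ℝ)))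
      (0, 0, 1, 0) 0 := by
    have h := ((hasDerivAt_id (0 : ℝ)).smul_const
      ((0, 0, 1, 0) : ℝ × ℝ × ℝ × (Fin 1 → ℝ))).const_add w
    simpa using h
  have hF' : HasFDerivAt (FF δ m D) (fderiv ℝ (FF δ m D) w)
      (w + (0 : ℝ) • ((0, 0, 1, 0) : ℝ × ℝ × ℝ × (Fin 1 → ℝ))) := by simpa using hF
  have h1 := hF'.comp_hasDerivAt 0 hγ
  have h2 : HasDerivAt (fun s : ℝ => FF δ m D (w + s • ((0, 0, 1, 0) : ℝ × ℝ × ℝ × (Fin 1 → ℝ))))
      1 0 := by
    have e : (fun s : ℝ => FF δ m D (w + s • ((0, 0, 1, 0) : ℝ × ℝ × ℝ × (Fin 1 → ℝ)))) =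
        fun s => FF δ m D w + s := by
      funext s
      simp [FF]
      ring
    rw [e]
    simpa using (hasDerivAt_id (0 : ℝ)).const_add (FF δ m D w)
  exact h1.unique h2

lemma gX_sq {δ : ℝ} {p : P3} (h : OnS δ p) : gX p ^ 2 = δ ^ 2 + (1 - p.z ^ 2) * (1 - p.y ^ 2) := by
  unfold OnS at h
  unfold gX
  linear_combination h

lemma gX_lower {δ κ : ℝ} (hκ : 1 ≤ κ) {p : P3} (h : OnS δ p) (hz : |p.z| ≤ κ) (hy : |p.y| ≤ κ) :
    1 + δ ^ 2 - κ ^ 2 ≤ gX p ^ 2 := by
  rw [gX_sq h]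
  have h1 : p.z ^ 2 ≤ κ ^ 2 := by rw [← sq_abs p.z]; gcongr
  have h2 : p.y ^ 2 ≤ κ ^ 2 := by rw [← sq_abs p.y]; gcongr
  have h3 : 1 ≤ κ ^ 2 := by nlinarith
  have h4 := sq_nonneg p.z
  have h5 := sq_nonneg p.y
  rcases le_total (p.z ^ 2) 1 with ha | ha
  · nlinarith
  · rcases le_total (p.y ^ 2) 1 with hb | hb
    · nlinarith
    · nlinarith [mul_nonneg (sub_nonneg.mpr ha) (sub_nonneg.mpr hb)]

lemma gX_upper {δ κ : ℝ} (hκ : 1 ≤ κ) {p : P3} (h : OnS δ p) (hz : |p.z| ≤ κ) (hy : |p.y| ≤ κ) :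
    gX p ^ 2 ≤ δ ^ 2 + κ ^ 4 := by
  rw [gX_sq h]
  have h1 : p.z ^ 2 ≤ κ ^ 2 := by rw [← sq_abs p.z]; gcongr
  have h2 : p.y ^ 2 ≤ κ ^ 2 := by rw [← sq_abs p.y]; gcongr
  have h3 : 1 ≤ κ ^ 2 := by nlinarith
  have ha : |1 - p.z ^ 2| ≤ κ ^ 2 := by
    rw [abs_le]; constructor <;> nlinarith [sq_nonneg p.z]
  have hb : |1 - p.y ^ 2| ≤ κ ^ 2 := by
    rw [abs_le]; constructor <;> nlinarith [sq_nonneg p.y]
  have hc : (1 - p.z ^ 2) * (1 - p.y ^ 2) ≤ κ ^ 2 * κ ^ 2 := by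
    refine (le_abs_self _).trans ?_
    rw [abs_mul]
    exact mul_le_mul ha hb (abs_nonneg _) (by positivity)
  nlinarith

/-- the identity for tangent vectors -/
lemma FF_tan {δ m ε : ℝ} (hm : 0 < m) (D : ℕ) (q u : P3) (hq : OnS δ q) (hW : m < gX q ^ 2)
    (hε : ε ^ 2 = 1) (hs : 0 < ε * gX q) (hu : Tan q u) :
    fderiv ℝ (FF δ m D) (q.z, q.y, (stepR^[D] q).z, fun _ => ε)
      (u.z, u.y, (dRk D q u).z, 0) = 0 := by
  set P : ℝ → P3 := fun s => ⟨q.z + s * u.z, q.y + s * u.y, q.x + s * u.x⟩ with hP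
  have hP0 : P 0 = q := by simp [hP]
  have hlin : ∀ a b : ℝ, HasDerivAt (fun s : ℝ => a + s * b) b 0 := by
    intro a b
    have := ((hasDerivAt_id (0 : ℝ)).mul_const b).const_add a
    simpa using this
  have hPd : HasDer P u 0 := ⟨hlin _ _, hlin _ _, hlin _ _⟩
  have hit := hPd.iter D
  rw [hP0] at hit
  set γ : ℝ → ℝ × ℝ × ℝ × (Fin 1 → ℝ) := fun s =>
    ((P s).z, (P s).y, (stepR^[D] (P s)).z, fun _ => ε) with hγ
  have hγd : HasDerivAt γ (u.z, u.y, (dRk D q u).z, 0) 0 :=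
    (hlin _ _).prodMk ((hlin _ _).prodMk (hit.1.prodMk (hasDerivAt_const 0 _)))
  have hγ0 : γ 0 = (q.z, q.y, (stepR^[D] q).z, fun _ => ε) := by
    simp only [hγ, hP0]
  have hF : HasFDerivAt (FF δ m D) (fderiv ℝ (FF δ m D) (γ 0)) (γ 0) :=
    (((FF_smooth δ hm D).differentiable (by simp)) _).hasFDerivAt
  have h1 := hF.comp_hasDerivAt 0 hγd
  -- the other computation
  set W : ℝ → ℝ := fun s => δ ^ 2 + (1 - (P s).z ^ 2) * (1 - (P s).y ^ 2) with hWd
  have e : (FF δ m D) ∘ γ = fun s => Bc D (P s).y * (gX (P s) - ε * ss m (W s)) := by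
    funext s
    simp only [Function.comp, hγ, FF, hWd]
    rw [(iter_z (P s) D).1]
    ring
  have hgX : HasDerivAt (fun s => gX (P s)) (u.x - (u.y * q.z + q.y * u.z)) 0 := by
    unfold gX
    have h2 := hPd.2.2.sub (hPd.2.1.mul hPd.1)
    rw [hP0] at h2
    exact h2
  have hW1 : HasDerivAt W (-(2 * q.z * u.z) * (1 - q.y ^ 2) + (1 - q.z ^ 2) * -(2 * q.y * u.y)) 0 := by
    have a1 := (hPd.1.pow 2).const_sub 1
    have a2 := (hPd.2.1.pow 2).const_sub 1
    have h3 := (a1.mul a2).const_add (δ ^ 2)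
    simp only [Pi.pow_apply] at h3
    rw [hP0] at h3
    refine h3.congr_deriv ?_
    simp
  have hW0 : W 0 = gX q ^ 2 := by
    simp only [hWd, hP0]
    rw [gX_sq hq]
  have hss := ss_hasDeriv hm hW
  have hss' : HasDerivAt (ss m) (1 / (2 * √(gX q ^ 2))) (W 0) := by rw [hW0]; exact hss
  have hcomp := (hss'.comp 0 hW1).const_mul ε
  have habs : √(gX q ^ 2) = ε * gX q := by
    rw [Real.sqrt_sq_eq_abs]
    have : |ε * gX q| = ε * gX q := abs_of_pos hs
    rw [abs_mul] at this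
    have hεa : |ε| = 1 := by
      have := sq_abs ε
      rw [hε] at this
      nlinarith [abs_nonneg ε]
    rw [hεa, one_mul] at this
    exact this
  have hg0 : gX q ≠ 0 := by
    intro h; rw [h, mul_zero] at hs; exact lt_irrefl _ hs
  have hε0 : ε ≠ 0 := by
    intro h; rw [h] at hε; norm_num at hε
  have hdiff : HasDerivAt (fun s => gX (P s) - ε * ss m (W s)) 0 0 := by
    refine (hgX.sub hcomp).congr_deriv ?_
    rw [habs]
    unfold Tan gA gB at hu
    have h4 : (gX q) * (u.x - (u.y * q.z + q.y * u.z)) * 2 =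
        (-(2 * q.z * u.z) * (1 - q.y ^ 2) + (1 - q.z ^ 2) * -(2 * q.y * u.y)) := by
      have h5 : (gX q) * u.x = -((q.z - q.x * q.y) * u.z + (q.y - q.x * q.z) * u.y) := by linarith
      have h6 : gX q = q.x - q.y * q.z := rfl
      rw [mul_sub, h5, h6]
      ring
    field_simp
    linarith
  have hval : gX (P 0) - ε * ss m (W 0) = 0 := by
    rw [hP0, hW0]
    unfold ss
    rw [gg_of_ge hm hW.le, habs]
    linear_combination (-(gX q)) * hε
  have hB : HasDerivAt (fun s => Bc D (P s).y) (deriv (Bc D) q.y * u.y) 0 := by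
    have hb : HasDerivAt (Bc D) (deriv (Bc D) q.y) ((fun s => (P s).y) 0) := by
      have : (fun s => (P s).y) 0 = q.y := by simp [hP]
      rw [this]
      exact (((Bc_smooth D).1.differentiable (by simp)) q.y).hasDerivAt
    exact hb.comp 0 hPd.2.1
  have h7 := hB.mul hdiff
  rw [hval, mul_zero, mul_zero, add_zero] at h7
  have h8 : HasDerivAt ((FF δ m D) ∘ γ) 0 0 := by
    rw [e]; exact h7
  have h9 := h1.unique h8
  rw [hγ0] at h9
  exact h9

/-- **SNFa** -/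
theorem tNFa (hQ : SQ) : SNFa := by
  intro δ κ hδ hκ1 hκ D hD
  have hcc := cc_sq δ
  have hccp := cc_pos δ
  obtain ⟨c0, hc0, hQ'⟩ := hQ δ κ hδ (by linarith) hκ
  set m : ℝ := (1 + δ ^ 2 - κ ^ 2) / 2 with hm
  have hmp : 0 < m := by
    have : κ ^ 2 < cc δ ^ 2 := by gcongr
    rw [hcc] at this
    rw [hm]; linarith
  set Cg : ℝ := √(δ ^ 2 + κ ^ 4) with hCg
  have hCg0 : 0 ≤ Cg := Real.sqrt_nonneg _
  refine ⟨1, fun w => w.1, FF δ m D, κ + 1 + Cg / c0, contDiff_fst, FF_smooth δ hmp D,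
    by positivity, ?_⟩
  rintro D' hD' I q hIc hIn hqc hq
  rw [mem_singleton_iff] at hD'
  subst hD'
  set K : ℝ := κ + 1 + Cg / c0 with hK
  have hK1 : 1 ≤ K := by rw [hK]; have : 0 ≤ Cg / c0 := by positivity
                         linarith
  have hKκ : κ ≤ K := by rw [hK]; have : 0 ≤ Cg / c0 := by positivity
                         linarith
  have hKp : 0 < K := by linarith
  have hlow : ∀ t ∈ I, 2 * m ≤ gX (q t) ^ 2 := by
    intro t ht
    obtain ⟨a1, a2, a3, -⟩ := hq t ht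
    have := gX_lower hκ1 a1 a2 a3
    rw [hm]; linarith
  have hne : ∀ t ∈ I, gX (q t) ≠ 0 := by
    intro t ht h
    have := hlow t ht
    rw [h] at this
    norm_num at this
    linarith
  have hcont : ContinuousOn (fun t => gX (q t)) I := by
    unfold gX
    exact hqc.2.2.sub (hqc.2.1.mul hqc.1)
  obtain ⟨t0, ht0⟩ := hIn
  obtain ⟨ε, hε, hsgn⟩ : ∃ ε : ℝ, ε ^ 2 = 1 ∧ ∀ t ∈ I, 0 < ε * gX (q t) := by
    have hpre : IsPreconnected I := hIc.isPreconnected
    rcases lt_or_gt_of_ne (hne t0 ht0) with h0 | h0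
    · refine ⟨-1, by norm_num, fun t ht => ?_⟩
      by_contra hcon
      have h1 : 0 ≤ gX (q t) := by linarith
      obtain ⟨s, hs, hs'⟩ := hpre.intermediate_value ht0 ht hcont ⟨h0.le, h1⟩
      exact hne s hs hs'
    · refine ⟨1, by norm_num, fun t ht => ?_⟩
      by_contra hcon
      have h1 : gX (q t) ≤ 0 := by linarith
      obtain ⟨s, hs, hs'⟩ := hpre.intermediate_value ht ht0 hcont ⟨h1, h0.le⟩
      exact hne s hs hs'
  have hεa : |ε| = 1 := by
    have := sq_abs ε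
    rw [hε] at this
    nlinarith [abs_nonneg ε]
  refine ⟨fun _ => ε, fun t => (q t).y, fun _ => by rw [hεa]; exact hK1, fun t ht => ?_,
    fun t ht t' ht' => ?_⟩
  · obtain ⟨a1, a2, a3, a4⟩ := hq t ht
    have hW : m < gX (q t) ^ 2 := by have := hlow t ht; linarith
    have hsg := hsgn t ht
    have habs : √(gX (q t) ^ 2) = ε * gX (q t) := by
      rw [Real.sqrt_sq_eq_abs]
      have : |ε * gX (q t)| = ε * gX (q t) := abs_of_pos hsg
      rw [abs_mul, hεa, one_mul] at this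
      exact this
    refine ⟨a3.trans hKκ, rfl, ?_, ?_, ?_⟩
    · simp only [FF]
      rw [← gX_sq a1]
      unfold ss
      rw [gg_of_ge hmp hW.le, habs, (iter_z (q t) D').1]
      linear_combination (-(Bc D' (q t).y * gX (q t))) * hε
    · have htan : Tan (q t) (fV (q t)) := by
        unfold Tan fV
        simp only
        ring
      have h1 := FF_tan hmp D' (q t) (fV (q t)) a1 hW hε hsg htan
      have hz : (fV (q t)).z = 0 := rfl
      have hy : (fV (q t)).y = gX (q t) := rfl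
      rw [hz, hy] at h1
      have hsplit : ((0, gX (q t), (dRk D' (q t) (fV (q t))).z, 0) : ℝ × ℝ × ℝ × (Fin 1 → ℝ)) =
          gX (q t) • (0, 1, 0, 0) + (dRk D' (q t) (fV (q t))).z • (0, 0, 1, 0) := by
        ext <;> simp
      rw [hsplit, map_add, map_smul, map_smul, FF_b δ hmp, smul_eq_mul, smul_eq_mul, mul_one] at h1
      have h2 := (hQ' (q t) D' a1 hD a2 a4).1
      set FX : ℝ := fderiv ℝ (FF δ m D') ((q t).z, (q t).y, (stepR^[D'] (q t)).z, fun _ => ε)
        (0, 1, 0, 0) with hFX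
      have h3 : |gX (q t)| * |FX| = |(dRk D' (q t) (fV (q t))).z| := by
        rw [← abs_mul, ← abs_neg (dRk D' (q t) (fV (q t))).z]
        congr 1
        linarith
      have h4 : |gX (q t)| ≤ Cg := by
        rw [hCg]
        apply Real.le_sqrt_of_sq_le
        rw [sq_abs]
        exact gX_upper hκ1 a1 a2 a3
      have h5 : c0 ≤ Cg * |FX| := by
        calc c0 ≤ |gX (q t)| * |FX| := by rw [h3]; exact h2
          _ ≤ Cg * |FX| := by gcongr
      have h6 : Cg ≤ K * c0 := by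
        have : Cg / c0 ≤ K := by rw [hK]; linarith
        rwa [div_le_iff₀ hc0] at this
      rw [div_le_iff₀ hKp]
      by_contra hcon
      push Not at hcon
      have h7 : Cg * |FX| ≤ (K * c0) * |FX| := by gcongr
      have h8 : (K * c0) * |FX| = c0 * (|FX| * K) := by ring
      have h9 : c0 * (|FX| * K) < c0 * 1 := by gcongr
      linarith
    · intro u hu
      refine ⟨u.y, ?_, ?_⟩
      · have : fderiv ℝ (fun w : ℝ × (Fin 1 → ℝ) => w.1) ((q t).y, fun _ => ε) =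
            ContinuousLinearMap.fst ℝ ℝ (Fin 1 → ℝ) := fderiv_fst
        rw [this]
        simp
      · exact FF_tan hmp D' (q t) u a1 hW hε hsg hu
  · have e1 : |(q t).y - (q t').y| ≤ |(q t).z - (q t').z| + |(q t).y - (q t').y| +
        |(stepR^[D'] (q t)).z - (stepR^[D'] (q t')).z| := by
      have := abs_nonneg ((q t).z - (q t').z)
      have := abs_nonneg ((stepR^[D'] (q t)).z - (stepR^[D'] (q t')).z)
      linarith
    refine e1.trans (le_mul_of_one_le_left ?_ hK1)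
    positivity

end Pool.Agent.H484.TmNFa
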