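import Pool.Agent.H193.UV.Stm

/-!
# Project UV (helper193), task MU: subalgebras with matrix units

Adapted from `Pool/Agent/H258/CR/Jac.lean`.
-/

set_option autoImplicit false

namespace Pool.Agent.H484.UVMU

open Pool.Agent.H193.UV
open Pool.Agent.H258.CR (MU)
open Finsupp

variable {k : Type} [Field k] {I : Type}

lemma op_ext {f g : OpI k I} (h : ∀ n, f (single n 1) = g (single n 1)) : f = g := by
  apply Finsupp.lhom_ext
  intro n c
  have h1 : (single n c : I →₀ k) = c • single n 1 := by simp
  rw [h1, map_smul, map_smul, h]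

lemma mI_apply (a b : I) (v : I →₀ k) : (mI a b : OpI k I) v = single a (v b) := rfl

section
variable [DecidableEq I]

lemma mI_mul (a b c d : I) : (mI a b * mI c d : OpI k I) = if b = c then mI a d else 0 := by
  apply op_ext
  intro n
  show (mI a b : OpI k I) ((mI c d : OpI k I) (single n 1)) = _
  rw [mI_apply, mI_apply]
  by_cases h : b = c
  · subst h
    simp [mI_apply]
  · rw [if_neg h, LinearMap.zero_apply, Finsupp.single_apply, if_neg (Ne.symm h),
      Finsupp.single_zero]

end

variable (s : ℕ ≃ I) (S : Subalgebra k (BigI k I))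
  (hS : ∀ a b : I, ((mI a b : OpI k I), (0 : k)) ∈ S)

/-- the matrix units -/
noncomputable def e (a b : ℕ) : S := ⟨((mI (s a) (s b) : OpI k I), (0 : k)), hS _ _⟩

/-- the entries -/
noncomputable def ent (r : S) (a b : ℕ) : k := (r.1.1 (single (s b) 1)) (s a)

/-- the augmentation -/
noncomputable def aug : S →+* k := (RingHom.snd (OpI k I) k).comp S.val.toRingHom

omit hS in
lemma ext_of (hz : ∀ r ∈ S, r.1 = 0 → r.2 = 0) {r t : S}
    (h : ∀ a b, ent s S r a b = ent s S t a b) : r = t := by
  have h1 : (r.1 - t.1).1 = 0 := by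
    apply op_ext
    intro j
    ext i
    obtain ⟨b, rfl⟩ := s.surjective j
    obtain ⟨a, rfl⟩ := s.surjective i
    have h2 : (r.1.1 (single (s b) 1)) (s a) = (t.1.1 (single (s b) 1)) (s a) := h a b
    show (r.1.1 (single (s b) 1)) (s a) - (t.1.1 (single (s b) 1)) (s a) = 0
    rw [h2, sub_self]
  have h2 : (r.1 - t.1).2 = 0 := hz _ (S.sub_mem r.2 t.2) h1
  have h3 : r.1 - t.1 = 0 := Prod.ext h1 h2
  exact Subtype.ext (sub_eq_zero.1 h3)

theorem s_MU : S_MU := by
  classical
  intro k _ I s S hS hz
  refine ⟨{ e := e s S hS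
            ent := ent s S
            aug := aug S
            aug_alg := fun c => rfl
            e_mul := ?_
            ent_zero := fun a b => rfl
            ent_add := fun r t a b => rfl
            ext := fun {r t} h => ext_of s S hz h
            ent_finite := ?_
            ent_e := ?_
            ent_e_mul := ?_
            ent_mul_e := ?_
            ent_smul := fun c r a b => rfl
            ent_alg := ?_ }⟩
  · intro a b c d
    apply Subtype.ext
    have h : ((e s S hS a b * e s S hS c d : S) : BigI k I) =
        ((mI (s a) (s b) * mI (s c) (s d) : OpI k I), (0 * 0 : k)) := rfl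
    rw [h, mI_mul]
    by_cases hbc : b = c
    · rw [if_pos (congrArg s hbc), if_pos hbc, mul_zero]
      rfl
    · rw [if_neg (fun h => hbc (s.injective h)), if_neg hbc, mul_zero]
      rfl
  · intro r b
    obtain ⟨n, hn⟩ := ((r.1.1 (single (s b) 1)).support.image s.symm : Finset ℕ).bddAbove
    refine ⟨n + 1, fun a ha => ?_⟩
    by_contra h
    have h1 : s a ∈ (r.1.1 (single (s b) 1)).support := Finsupp.mem_support_iff.2 h
    have h2 : a ∈ ((r.1.1 (single (s b) 1)).support.image s.symm : Finset ℕ) :=
      Finset.mem_image.2 ⟨s a, h1, s.symm_apply_apply a⟩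
    have := hn h2
    omega
  · intro a b c d
    show ((mI (s a) (s b) : OpI k I) (single (s d) 1)) (s c) = _
    rw [mI_apply, Finsupp.single_apply, Finsupp.single_apply]
    by_cases h1 : a = c <;> by_cases h2 : d = b
    · simp [h1, h2]
    · simp [h1, h2, Ne.symm h2]
    · simp [h1]
    · simp [h1]
  · intro a b r c d
    show ((mI (s a) (s b) : OpI k I) (r.1.1 (single (s d) 1))) (s c) = _
    rw [mI_apply, Finsupp.single_apply]
    by_cases h : a = c
    · rw [if_pos (congrArg s h), if_pos h]
      rfl
    · rw [if_neg (fun h' => h (s.injective h')), if_neg h]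
  · intro a b r c d
    show (r.1.1 ((mI (s a) (s b) : OpI k I) (single (s d) 1))) (s c) = _
    rw [mI_apply]
    by_cases h : b = d
    · subst h
      rw [if_pos rfl, Finsupp.single_eq_same]
      rfl
    · have h1 : (single (s d) (1 : k) : I →₀ k) (s b) = 0 := by
        rw [Finsupp.single_apply, if_neg (fun h' => h (s.injective h').symm)]
      rw [h1, if_neg h, Finsupp.single_zero, map_zero]
      rfl
  · intro c a b
    show (c • (single (s b) 1 : I →₀ k)) (s a) = _
    rw [Finsupp.smul_apply, Finsupp.single_apply]
    by_cases h : b = a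
    · simp [h]
    · simp [h, Ne.symm h]

end Pool.Agent.H484.UVMU
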